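import Pool.Agent.Run7.h780.TW.Crs

/-!
# Zero-cycles on quotients of powers of elliptic curves over the algebraic numbers

Let `E` be an elliptic curve over `ℚ̄` and let `G ⊂ GL_r(ℤ)` be a finite group, acting on `E^r`.  Suppose that
`X = E^r / G` has no holomorphic forms of the degrees `1, …, ρ + 1`, that is, `G` has no invariants in
`Λ^m(ℚ^r)` for `1 ≤ m ≤ ρ + 1` (a form of degree `ρ + 2` or more is allowed, as on the Calabi-Yau quotients
of `E³` if `ρ = 1`).  Then `H¹(X) = 0 = H^{2r-1}(X)`, and the question predicts that all the zero-cycles of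
degree zero on `X` are torsion.  We show that through any `ρ + 1` points `P₀, …, P_ρ` of `E(ℚ̄)` there is a
subgroup `Λ` of `E(ℚ̄)` of infinite rank (which contains all the torsion points) such that this is true for
all the zero-cycles on `X` which come from `Λ^r`.

The theorem is stated for correspondences.  Let `Γ = ∑ n_l [graph of g_l]` be a correspondence from `E^r` to
`E^s`, with integral matrices `g_l`.  Its action on `H^{m,0}(E^s) = Λ^m(ℂ^s)` is zero if and only if
`∑ n_l det (g_l)_{u,v} = 0` for all the minors of size `m`.  If this is true for `1 ≤ m ≤ ρ + 1`, then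
`s! Γ_* Z` is rationally equivalent to zero on `E^s` for all the zero-cycles `Z` of degree zero on `E^r` which
are supported on `Λ^r`.  For the group `G` one takes `Γ = ∑ [graph of g]`, the sum over `g ∈ G`; then `Γ_* Z` is
the pullback of the image of `Z` on `X`.

The proof: the class of `(x₁, …, x_s)` in the Chow group is a sum of components, one for each set of
coordinates, which are multilinear and alternating functions of these coordinates; the component of
degree `m` of `Γ_* Z` vanishes by Cauchy and Binet if `Γ` is zero on `H^{m,0}`.  The group `Λ` is generated by a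
group of infinite rank through `P₀` for which all the components of degree two vanish (a chain of
2-isogenies and a tower of fields over `ℚ_2`, see `MP_b8021b_nt`), and by `P₁, …, P_ρ`; so the components of
degree `m > ρ + 1` vanish on it.
-/

set_option autoImplicit false

namespace Pool.Agent.Results.MP_32dfd1_ag.CorrespondencesThroughPoints

open Pool.Agent.Run7.h780.ZS

open scoped Classical in
theorem result (a b : AlgebraicClosure ℚ) (h : 4 * a ^ 3 + 27 * b ^ 2 ≠ 0) (ρ : ℕ)
    (P : Fin (ρ + 1) → Pt a b) :
    ∃ Λ : AddSubgroup (Pt a b), (∀ i, P i ∈ Λ) ∧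
      (∃ Q : ℕ → Pt a b, LinearIndependent ℤ Q ∧ ∀ n, Q n ∈ Λ) ∧
      (∀ (T : Pt a b) (n : ℕ), n ≠ 0 → n • T = 0 → T ∈ Λ) ∧
      ∀ (r s N : ℕ) (g : Fin N → Matrix (Fin s) (Fin r) ℤ) (n : Fin N → ℤ),
        (∀ m : ℕ, 1 ≤ m → m ≤ ρ + 1 → ∀ (u : Fin m → Fin s) (v : Fin m → Fin r),
          ∑ l, n l * ((g l).submatrix u v).det = 0) →
        ∀ Z : (Fin r → Pt a b) →₀ ℤ, (∀ x ∈ Z.support, ∀ i, x i ∈ Λ) →
          Z.sum (fun _ m => m) = 0 →
          s.factorial • ∑ l, n l • Finsupp.mapDomain (hom (g l)) Z ∈
            RatEquiv (fun _ : Fin s => a) (fun _ : Fin s => b) :=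
  Pool.Agent.Run7.h780.TW.correspondences (mul_ne_zero two_ne_zero h) ρ P

end Pool.Agent.Results.MP_32dfd1_ag.CorrespondencesThroughPoints
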