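import Pool.Agent.Run7.h634.RV.Hyp

/-!
# Homologically trivial cycles on hypersurfaces over `ℚ̄`

Let `X` be a smooth hypersurface of degree `d` and dimension `n` over `ℚ̄`. We have `H^(2m-1)(X) = 0` unless
`2 m - 1 = n`. So the question predicts that homologically trivial cycles of codimension `m` on `X` are
torsion if `e = n - 2 m` is not `-1`. If `e = -1` there are in general cycles of infinite order with a
nontrivial Abel-Jacobi class. Denote by `T_d(n, m)` the statement that homologically trivial cycles
of codimension `m` are torsion for all hypersurfaces of degree `d` and dimension `n`.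

**Theorem.** Let `e` be an integer and `d ≥ 1` (`d ≥ 3` in 2-4). Suppose in 1-3 that for every `N` there are
a multiple `d' ≥ 3` of `d` and `n' ≥ N`, `m'` with `n' - 2 m' = e` such that `T_{d'}(n', m')` is true.

1. `T_d(n, m)` is true for all `n` and `m` with `n - 2 m = e`.
2. Let `X`, `Z` be hypersurfaces of degree `d` and `dim X + dim Z - 2 s = e`. Then all homologically trivial
   cycles in `CH^s(X × Z)` which are primitive in both factors are torsion. In particular `a × b` is
   torsion if `a` and `b` are homologically trivial.
3. If `(r + 1) (dim X - 2 m) = e` then `a × ⋯ × a` (`r + 1` factors) is torsion for all homologically trivial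
   `a ∈ CH^m(X)`.
4. Suppose that for every `M` the statement `T_d(n, m)` is true for all large `n` and all `m` with
   `n ≤ M |n - 2 m|`. Then all homologically trivial cycles of codimension `m ≠ dim X / 2` on all
   hypersurfaces `X` of degree `d` are smash nilpotent (rational coefficients).

In 2, 3 and 4 there are also cycles with nontrivial Abel-Jacobi classes. For instance (`e = -2`): if the
question has a positive answer for the hypersurfaces of degree `d` in infinitely many even dimensions
`n` and the codimension `n / 2 + 1`, then

* the Albanese kernel of `X × Z` is zero for all smooth plane curves `X`, `Z` of degree `d` over `ℚ̄`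
  (a case of a conjecture of Beilinson);
* `a × b` is torsion for all homologically trivial cycles `a`, `b` of codimension `(n + 1) / 2` on
  hypersurfaces of degree `d` and odd dimensions `n`, for example on quintic threefolds (`d = 5`);
* zero-cycles of degree zero on surfaces of degree `d` in `ℙ³` over `ℚ̄` are torsion.

## Proof

Let `X` and `Z` be the hypersurfaces `F(x) = 0` and `G(y) = 0`, and `J` the join `F(x) + G(y) = 0`. The lines
which join `x ∈ X` and `z ∈ Z` are contained in `J`. They form a `ℙ¹`-bundle `π : P ⟶ X × Z` with a
morphism `q : P ⟶ J`. If `α ∈ CH^s(X × Z)` is primitive in both factors then `π_* q^* q_* π^* α = - d α`. So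
`α` is zero if and only if `q_* π^* α ∈ CH^(s+1)(J)` is zero, and
`dim J - 2 (s + 1) = dim X + dim Z - 2 s`. Homologically trivial classes are primitive. This gives 2, from 1,
and 3 and 4 with iterated joins. For 1 let `Z` be of even dimension with a primitive class `b` in the middle
codimension and `b ^ 2 ≠ 0`: the join with `a × b` has the same `e` as `a`, and `a × b = 0` implies `a = 0`.
Moreover every hypersurface is dominated by one of degree `d c` and the same dimension.

The theories `C` and `H` in the statement have the formal properties of the Chow groups with rational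
coefficients and of a Weil cohomology theory (`IsChowProj`, `IsWeilProj`); the facts on hypersurfaces and
joins (`IsHyperFamily`, `IsHyperClass`, `IsJoin`) are the other known results which are used.
-/

set_option autoImplicit false

open CategoryTheory AlgebraicGeometry

universe u v w

namespace Pool.Agent.Results.MP_32dfd1_ag.HypersurfacesJoins

open Pool.Agent.H914 Pool.Agent.H914.VarClass Pool.Agent.W492.BB Pool.Agent.TH133
  Pool.Agent.Run7.H634.HC Pool.Agent.Run7.H634.RV

/-- **Homologically trivial cycles on hypersurfaces.** `𝓕 d` is the class of the smooth hypersurfaces of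
degree `d` (of positive dimension) with their hyperplane classes, and `Often H 𝓕 d e` says that
homologically trivial cycles of codimension `m'` are zero (rational coefficients) for infinitely many
`(n', m')` with `n' - 2 m' = e`, and suitable multiples of `d`. Then (1) this is true for `d` and all
`(n, m)` with `n - 2 m = e`; (2) homologically trivial classes in `CH^s(X × Z)`,
`dim X + dim Z - 2 s = e`, which are primitive in both factors, are zero; (3) `a × ⋯ × a` (`r + 1` factors)
is zero for homologically trivial `a ∈ CH^m(X)` with `(r + 1) (dim X - 2 m) = e`; (4) the asymptotic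
form of the question for `d` implies that homologically trivial cycles of codimension different
from `dim X / 2` are smash nilpotent. -/
theorem result {k : Type u} [Field k] {𝒱 : VarClass k} {C : TheoryData.{u, v, 0} 𝒱 ℚ}
    [IsChowProj C] {K : Type w} [Field K] (H : WeilTheoryData.{u, v, w} C K) [IsWeilProj H]
    {𝓕 : ℕ → ∀ X : 𝒱.Obj, C.A X → Prop} (h𝓕 : IsHyperFamily C 𝓕) :
    (∀ d : ℕ, 1 ≤ d → ∀ e : ℤ, Often H 𝓕 d e → ∀ n m : ℕ, (n : ℤ) - 2 * m = e →
      InjAt H (𝓕 d) n m) ∧
    (∀ d : ℕ, 3 ≤ d → ∀ (X Z : 𝒱.Obj) (h : C.A X) (h' : C.A Z), 𝓕 d X h → 𝓕 d Z h' →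
      ∀ s : ℕ, Often H 𝓕 d (X.dim + Z.dim - 2 * s) → ∀ α : C.A (X.prod Z), C.Deg s α →
        BiPrim C h h' α → H.cl α = 0 → α = 0) ∧
    (∀ d : ℕ, 3 ≤ d → ∀ (X : 𝒱.Obj) (h : C.A X), 𝓕 d X h → ∀ (m r : ℕ) (a : C.A X),
      C.Deg m a → H.cl a = 0 → Often H 𝓕 d ((r + 1) * (X.dim - 2 * m)) → epow C a r = 0) ∧
    (∀ d : ℕ, 3 ≤ d → AsymptoticQ1 H 𝓕 d → ∀ (X : 𝒱.Obj) (h : C.A X), 𝓕 d X h →
      ∀ (m : ℕ) (a : C.A X), X.dim ≠ 2 * m → C.Deg m a → H.cl a = 0 → IsNil C a) :=
  hypersurfaces h𝓕

end Pool.Agent.Results.MP_32dfd1_ag.HypersurfacesJoins
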