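import Pool.Agent.Run7.h848.XG.Hom

/-!
# Homologically trivial cycles on the powers of varieties without odd cohomology

Let `X` be a smooth projective variety over `ℚ̄` (or over a number field) with `H^i(X, ℚ) = 0` for all odd
`i`: for instance a K3 surface, any regular surface, a hypersurface or complete intersection of even
dimension, a Hilbert scheme of points of a K3 surface. Then all powers `X ^ n` have this property and the
question predicts that all homologically trivial cycles on all powers of `X` are torsion. Let `b` be the
sum of the Betti numbers of `X`, `ρ(n)` the rank of the group of the cycles of all codimensions on `X ^ n`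
modulo numerical equivalence (`ρ(n) ≤ b ^ n`), and `η(n)` the dimension, maybe infinite, of
`⊕ CH^m_hom(X ^ n)_ℚ`. For `k ≥ 1` let `η_k(n) ≤ η(n)` be the dimension, modulo smash-nilpotent cycles, of
the space spanned by the cycles on `X ^ n` which are compositions of `k` homologically trivial
correspondences (so they are in the `k`-th step of each filtration of Bloch–Beilinson type).

**Theorem.** (1) (law) `η(n) / ρ(n)` converges for `n → ∞` to a limit `N` in `{0, 1, 2, …, ∞}`, and `N = 0` if
and only if the answer to the question is positive for all powers of `X` and all codimensions.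

(2) (gap) If there is one homologically trivial cycle on one power `X ^ s` which is not torsion, then for
ALL `n` with `2 n ≥ 128 (s + 1) ^ 2 b ^ (2 s + 6)`: `η(2 n) ≥ ρ(2 n) / 2` and
`η(2 n) ≥ b ^ (2 n) / (2 (n + 1) ^ (b ^ 2))`. So the question for all powers of `X` is equivalent to
`η(2 n) < ρ(2 n) / 2` for infinitely many `n`.

(3) (exponential growth) If `X` is not finite-dimensional in the sense of Kimura then there is a real
number `c > b` such that, for every `k`, `η_k(n) ≥ c ^ n` for all large `n`; in particular `N = ∞`. So if `N` is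
finite, or if `η_k(n) ≤ (b + o(1)) ^ n` for one `k` and infinitely many `n`, then `X` is finite-dimensional.

(4) More precisely, if `y` is a homologically trivial correspondence from `X ^ s` to itself which is not
nilpotent, then for ALL `k ≥ 1` and `n ≥ 0`

  `η_k(2 s (n + k)) ≥ ∑ i ≤ n, (n choose i) ρ(2 s (n - i)) ≥ (b ^ (2 s) + 1) ^ n / (s n + 1) ^ (b ^ 2)`.

The setting. `C` is the category of Chow motives over the base field (graded pieces added), `T = h(X)`,
`tp T n = h(X ^ n)`, `R` the singular cohomology with coefficients extended to an algebraically closed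
field, `par` is `1` on the even and `-1` on the odd cohomology. No standard conjecture is assumed: the
sign conjecture is trivial for `X`. `prodCyc ℚ R 1 Z` is the space of the homologically trivial cycles on
`Z` (`mem_prodCyc_one`).

Proof. (1), (2): the law and the gap of `N64/AF` of the starting tree for the functor of the
homologically trivial cycles. (4): if `y` is not algebraic over `ℚ` the powers `y ^ j`, `j ≥ k`, are
infinitely many independent elements. Otherwise a multiple `p` of `y` is an idempotent different from `0`
(Fitting). Let `P = X ^ s × X ^ s` and `z` the cycle `p` on `P`. We insert `z` into the factors of a subset of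
the `n` factors `P` of `P ^ n` and arbitrary cycles in the product of the others. Since `1 × p` is a
projector of `P` these cycles are independent modulo numerical equivalence and smash-nilpotence, by
contractions with `p ∘ ⋯ ∘ p = p`. With `k` more factors and `z` inserted into them, all these cycles are
compositions of `k` homologically trivial correspondences. (3) follows from (4) and
`kimura_of_nil` in `N64/AF`.
-/

set_option autoImplicit false

open CategoryTheory MonoidalCategory Filter
open Pool.Agent.Y112.SR Pool.Agent.Y112.KD Pool.Agent.N64.AF Pool.Agent.Run7.h848.XG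
open scoped ENNReal

namespace Pool.Agent.Results.MP_32dfd1_ag.NoOddCohomology

universe v u w

/-- Homologically trivial cycles on all powers of a variety without odd cohomology: law, gap and
exponential growth. -/
theorem result {C : Type u} [Category.{v} C] [Preadditive C] [MonoidalCategory C]
    [MonoidalPreadditive C] [SymmetricCategory C] [RightRigidCategory C]
    [Linear ℚ C] [MonoidalLinear ℚ C] [IsIdempotentComplete C]
    {K : Type w} [Field K] [IsAlgClosed K] [Algebra ℚ K] {R : SuperRealisation C K}
    (hR : IsReal ℚ R) {T : C} [ExactPairing T T] (hT : R.par T = 𝟙 _)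
    (hr : ∃ (i : 𝟙_ C ⟶ T) (r : T ⟶ 𝟙_ C), i ≫ r = 𝟙 (𝟙_ C)) :
    (∃ N : ℕ∞, RatioTo ℚ T (fun n => dimE ℚ (prodCyc ℚ R 1 (tp T n))) N ∧
      (N = 0 ↔ ∀ (n : ℕ) (α : 𝟙_ C ⟶ tp T n), R.H.map α = 0 → α = 0) ∧
      (N ≠ ⊤ → Pool.Agent.R905.IsKimuraFinite T)) ∧
    (∀ m n : ℕ, (∃ α : 𝟙_ C ⟶ tp T m, R.H.map α = 0 ∧ α ≠ 0) →
      128 * (m + 1) ^ 2 * bt R T ^ (2 * m + 6) ≤ 2 * n →
      Pool.Agent.Run7.h184.AJ.Large ℚ R T n (dimE ℚ (prodCyc ℚ R 1 (tp T (2 * n))))) ∧
    (Pool.Agent.R905.IsKimuraFinite T ∨
      ∃ c : ℝ, (bt R T : ℝ) < c ∧ ∀ k : ℕ, ∀ᶠ n : ℕ in atTop, ENNReal.ofReal (c ^ n) ≤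
        ((deepDim (fun Z => prodCyc ℚ R k Z) (tp T n) : ℕ∞) : ℝ≥0∞)) ∧
    (∀ (m : ℕ) (y : End (tp T m)), R.H.map (y : tp T m ⟶ tp T m) = 0 → ¬ IsNilpotent y →
      ∀ k n : ℕ, 0 < k → ((∑ i ∈ Finset.range (n + 1),
        n.choose i * numRank ℚ (tp T (2 * m * (n - i))) : ℕ) : ℕ∞) ≤
          deepDim (fun Z => prodCyc ℚ R k Z) (tp T (2 * m * (n + k)))) ∧
    (∀ m n : ℕ, (bt R T ^ (2 * m) + 1) ^ n ≤ (m * n + 1) ^ (bt R T ^ 2) *
      ∑ i ∈ Finset.range (n + 1), n.choose i * numRank ℚ (tp T (2 * m * (n - i)))) :=
  hom_main (isPow_of_even hR hT hr)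

end Pool.Agent.Results.MP_32dfd1_ag.NoOddCohomology
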