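import Pool.Agent.Run7.h634.RV.Main

/-!
# Homologically trivial cycles over `ℚ̄`: rational varieties, and the codimension above the middle

Let `Q1(X, m)` be the statement of the question for a smooth projective variety `X` over `ℚ̄` and the
codimension `m`: if `H^(2m-1)(X, ℚ) = 0` then the homologically trivial cycles of codimension `m` are
torsion. We write `n = dim X` and `i = n - m` for the dimension of the cycles.

**Theorem.**

1. Let `m` and `M` be given. If `Q1(V, m + 1)` is true for the rational varieties `V` of dimension at
   least `M`, then `Q1(X, m)` is true for all `X` with `2 m - 1 ≤ n`.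
2. Let `i` and `M` be given. If `Q1(V, dim V - i - 1)` is true (cycles of dimension `i + 1`) for the
   rational varieties `V` of dimension at least `M`, then `Q1(X, n - i)` is true (cycles of dimension `i`)
   for all `X` with `2 (n - i) - 1 ≥ n`.
3. If `Q1(X, i + 2)` is true for all `X` of dimension `2 i + 2`, then it is true for the cycles of
   dimension `i` on all `X` with `2 (n - i) - 1 > n`.
4. If `Q1(X, i + 3)` is true for all `X` of dimension `2 i + 4`, then `Q1(X, i + 1)` is true for all `X` of
   dimension `2 i + 1` (so for the middle degree `2 m - 1 = n`).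
5. Let `f` be any function. The answer to the question is positive (for all `X` and `m ≥ 2`; the case
   `m = 1` is known) if and only if `Q1(X, m)` is true for all `X` of even dimension `2 m - 2`, and for all
   rational `V` and `m ≥ 3` with `dim V ≥ f(m)`.

Here the rational varieties can be restricted to the blow-ups of projective spaces along smooth
subvarieties. For instance (`i = 0`) the question for zero-cycles follows from the one for one-cycles on
rational varieties of large dimension, although all zero-cycles of degree zero on rational varieties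
are zero, and it follows from the case of surfaces. By 1 and 2 it is enough to know the rational
varieties and, on them, the codimensions `m` with `m ≤ ε dim V` or `dim V - m ≤ ε dim V`.

## Proof

(1), (2) Let `V` be the blow-up of a projective space along `X`, of codimension `c`. Then
`CH^l(V)` is the sum of `CH^(l-j)(X)`, `1 ≤ j < c`, and of the Chow group of the projective space, and
`H^(2l-1)(V)` is the sum of the groups `H^(2(l-j)-1)(X)`, `1 ≤ j < c`. Take `l = m + 1` if `2 m - 1 ≤ n`:
the groups `H^(2(m+1-j)-1)(X)` are zero by the hard Lefschetz theorem (injectivity below the middle).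
Take `l = m + c - 1` if `2 m - 1 ≥ n`: now the surjectivity above the middle is used. The codimension
`c` can be chosen as large as one likes.

(3) Let `z` be homologically trivial of dimension `i`, `n ≥ 2 i + 3`. By Kleiman's theorem `z` is represented by
disjoint smooth subvarieties, so it is contained in a smooth ample divisor `Y`. By the weak Lefschetz
theorem it is homologically trivial on `Y`, and `H_(2i+1)(Y) = H_(2i+1)(X) = 0` as long as
`dim Y ≥ 2 i + 2`. (4) Apply (2) and (3) to the blow-up of codimension `c ≥ 3`. (5) follows.

The theories `C` and `H` in the statement have the formal properties of the Chow groups with rational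
coefficients and of a Weil cohomology theory (`IsChowProj`, `IsWeilProj`); the hard Lefschetz theorem
(`HasLefschetz`), the divisors through cycles of small dimension (`HasSections`) and the motive of a
blow-up (`IsBlowUp`) are the other known results which are used.
-/

set_option autoImplicit false

open CategoryTheory AlgebraicGeometry

universe u v w

namespace Pool.Agent.Results.MP_32dfd1_ag.RationalVarieties

open Pool.Agent.H914 Pool.Agent.H914.VarClass Pool.Agent.W492.BB Pool.Agent.TH133
  Pool.Agent.Run7.H634.RV

/-- **The question for rational varieties and for the codimension above the middle.** `𝓡` is a class of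
varieties which contains, for all `X`, blow-ups of projective spaces of arbitrarily large dimension
along `X` (for instance all smooth projective rational varieties). `Q1 H X m` says that, if
`H^(2m-1)(X) = 0`, the cycle class map is injective on `CH^m(X)` (rational coefficients). The five
parts are those of the theorem above. -/
theorem result {k : Type u} [Field k] {𝒱 : VarClass k} {C : TheoryData.{u, v, 0} 𝒱 ℚ}
    [IsChowProj C] {K : Type w} [Field K] (H : WeilTheoryData.{u, v, w} C K) [IsWeilProj H]
    (hL : ∀ X : 𝒱.Obj, HasLefschetz H X) (hS : HasSections H) {𝓡 : 𝒱.Obj → Prop}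
    (h𝓡 : ∀ (X : 𝒱.Obj) (N : ℕ), ∃ (V : 𝒱.Obj) (c : ℕ), N ≤ c ∧ 𝓡 V ∧ IsBlowUp C X V c) :
    (∀ m M : ℕ, (∀ V : 𝒱.Obj, 𝓡 V → M ≤ V.dim → Q1 H V (m + 1)) →
      ∀ X : 𝒱.Obj, 2 * m ≤ X.dim + 1 → Q1 H X m) ∧
    (∀ i M : ℕ,
      (∀ (V : 𝒱.Obj) (m : ℕ), 𝓡 V → M ≤ V.dim → m + (i + 1) = V.dim → Q1 H V m) →
      ∀ (X : 𝒱.Obj) (m : ℕ), m + i = X.dim → X.dim + 1 ≤ 2 * m → Q1 H X m) ∧
    (∀ i : ℕ, (∀ X : 𝒱.Obj, X.dim = 2 * i + 2 → Q1 H X (i + 2)) →
      ∀ (X : 𝒱.Obj) (m : ℕ), m + i = X.dim → X.dim + 2 ≤ 2 * m → Q1 H X m) ∧
    (∀ i : ℕ, (∀ X : 𝒱.Obj, X.dim = 2 * i + 4 → Q1 H X (i + 3)) →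
      ∀ X : 𝒱.Obj, X.dim = 2 * i + 1 → Q1 H X (i + 1)) ∧
    (∀ f : ℕ → ℕ, (∀ (X : 𝒱.Obj) (m : ℕ), 2 ≤ m → Q1 H X m) ↔
      (∀ (i : ℕ) (X : 𝒱.Obj), X.dim = 2 * i + 2 → Q1 H X (i + 2)) ∧
        ∀ (m : ℕ) (V : 𝒱.Obj), 3 ≤ m → 𝓡 V → f m ≤ V.dim → Q1 H V m) :=
  ⟨low hL h𝓡, high hL h𝓡, q1_sections' hS, middle hL hS h𝓡, main hL hS h𝓡⟩

end Pool.Agent.Results.MP_32dfd1_ag.RationalVarieties
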